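import Pool.Agent.QGP776.FiniteStab

set_option autoImplicit false

namespace Pool.Agent.Results.MP_a0202c_co.FiniteStabilisers

universe u

open Pool.Agent.QGP776

/-- Let `G` be a transitive permutation group with finite point stabilisers on a set `Ω` of any
cardinality. Then `G` is realisable if and only if for all points `x, y`:
if `G_xy` fixes infinitely many points, then some `z` has `G_xy = G_xz = G_yz`, and
if `G_xy` fixes only finitely many points, then the finite local problem on the set of these points
is solvable. -/
theorem result (Ω : Type u) (G : Subgroup (Equiv.Perm Ω)) (ht : Transitive G)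
    (hfin : ∀ x : Ω, Finite {g : Equiv.Perm Ω // g ∈ G ∧ g x = x}) :
    Realisable G ↔ ∀ x y : Ω,
      ((FixPair G x y).Infinite → ∃ z, Rigid G x y z) ∧
      ((FixPair G x y).Finite → ∃ T : Set (Ω × Ω × Ω), LocalLatin G (FixPair G x y) T) :=
  finite_stab_iff ht hfin

end Pool.Agent.Results.MP_a0202c_co.FiniteStabilisers
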