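import Pool.Agent.QGP776.Infinite

set_option autoImplicit false

namespace Pool.Agent.Results.MP_a0202c_co.InfiniteGroups

universe u

open Pool.Agent.QGP776 Cardinal

/-- Let `G` be a transitive permutation group on an infinite set `Ω`, `ω` a point, `F` the set of
fixed points of `G_ω`. Suppose either that `G_ω` is finite and `G_ωy` fixes `|Ω|` points for each
`y` outside `F`, or that `|G_ω| < |Ω|` and `G_ωy = 1` for each `y` outside `F`. Then `G` is
realisable if and only if each `y` outside `F` has a `z` with `G_ωy = G_ωz = G_yz`, and `F` is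
infinite or the (regular) group induced by `G` on `F` has a complete mapping. -/
theorem result (Ω : Type u) [Infinite Ω] (G : Subgroup (Equiv.Perm Ω)) (ω : Ω)
    (ht : Transitive G)
    (h : (Finite {g : Equiv.Perm Ω // g ∈ G ∧ g ω = ω} ∧
        ∀ y, y ∉ FixPt G ω → #(FixPair G ω y) = #Ω) ∨
      (#{g : Equiv.Perm Ω // g ∈ G ∧ g ω = ω} < #Ω ∧
        ∀ y, y ∉ FixPt G ω → ∀ g ∈ G, g ω = ω → g y = y → g = 1)) :
    Realisable G ↔ (∀ y, y ∉ FixPt G ω → ∃ z, Rigid G ω y z) ∧
      ((FixPt G ω).Infinite ∨
        ∃ θ : induced G (FixPt G ω) → induced G (FixPt G ω), Function.Bijective θ ∧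
          Function.Bijective (fun w => w * θ w)) :=
  infinite_iff ht ω h

end Pool.Agent.Results.MP_a0202c_co.InfiniteGroups
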