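import Pool.Agent.QGP776.Homog

set_option autoImplicit false

namespace Pool.Agent.Results.MP_a0202c_co.OneMovedOrbit

universe u

open Pool.Agent.QGP776

/-- Let `G` be transitive on `Ω` and suppose that `G` is transitive on the unordered pairs `{x, y}`
with `y` not fixed by `G_x` (if `Ω` is infinite, suppose also that `G_x` is never properly
contained in another point stabiliser). Then `G` is realisable if and only if the group `W` induced
by `G` on the block of fixed points of `G_ω` (a regular group, isomorphic to `N_G(G_ω)/G_ω`) has a
complete mapping, and either `G` is regular or there are three points `x, y, z` in different blocks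
with `G_xy = G_xz = G_yz`. -/
theorem result (Ω : Type u) (G : Subgroup (Equiv.Perm Ω)) (ω : Ω) (ht : Transitive G)
    (hB : Finite Ω ∨ ∀ x w, w ∈ FixPt G x → x ∈ FixPt G w)
    (hT : ∀ x y x' y', y ∉ FixPt G x → y' ∉ FixPt G x' →
      ∃ g ∈ G, (g x = x' ∧ g y = y') ∨ (g x = y' ∧ g y = x')) :
    Realisable G ↔
      (∃ θ : induced G (FixPt G ω) → induced G (FixPt G ω), Function.Bijective θ ∧
        Function.Bijective (fun w => w * θ w)) ∧
      (FixPt G ω = Set.univ ∨ ∃ x y z, y ∉ FixPt G x ∧ z ∉ FixPt G x ∧ z ∉ FixPt G y ∧
        Rigid G x y z) := by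
  have hB' : FixSymm G := by
    rcases hB with h | h
    · exact fixSymm_of_finite ht
    · exact h
  rw [← induced_iff hB' ht ω]
  exact homogeneous_iff hB' ht ω hT

end Pool.Agent.Results.MP_a0202c_co.OneMovedOrbit
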