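import Pool.Agent.QGP776.Obstruction

set_option autoImplicit false

namespace Pool.Agent.Results.MP_a0202c_co.SylowObstruction

universe u

open Pool.Agent.QGP776 MulAction

/-- Let all elements of `G` be automorphisms of one quasigroup on `Ω` (finite or infinite), let `F`
be a finite set that is the set of common fixed points of some subset `L` of `G` (for example
`F = Ω`, `L = ∅`), let `P` be a finite 2-subgroup of `G` that preserves `F`, and let `k > 0` be such
that `2 ^ (k + 1)` does not divide `|F|`. Suppose that `2 ^ k` divides the size of every `P`-orbit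
in `F`; this holds in particular when `F = Ω`, `G` is transitive, `P` is a Sylow 2-subgroup of `G`
(a 2-subgroup of odd index) and `2 ^ k` divides `|Ω|`. Then there is a point `x` of `F` whose
`P`-orbit has size `2 ^ k` and for which `N_P(P_x)/P_x` is not cyclic. -/
theorem result (Ω : Type u) (G P : Subgroup (Equiv.Perm Ω)) (L : Set (Equiv.Perm Ω)) (F : Set Ω)
    (hR : Realisable G) (hPG : P ≤ G) (hfinP : Finite P) (hP : IsPGroup 2 P) (hL : L ⊆ G)
    (hFdef : F = {x | ∀ g ∈ L, g x = x}) (hF : F.Finite) (hPF : ∀ g ∈ P, ∀ x ∈ F, g x ∈ F)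
    (k : ℕ) (hk : 0 < k) (hcard : ¬ 2 ^ (k + 1) ∣ F.ncard)
    (h : (∀ x ∈ F, 2 ^ k ∣ Nat.card (orbit P x)) ∨
      (F = Set.univ ∧ Transitive G ∧ Odd (P.relIndex G) ∧ 2 ^ k ∣ F.ncard)) :
    ∃ x ∈ F, Nat.card (orbit P x) = 2 ^ k ∧
      ¬ IsCyclic (↥(Subgroup.normalizer (stabilizer P x : Set P)) ⧸
        (stabilizer P x).subgroupOf (Subgroup.normalizer (stabilizer P x : Set P))) := by
  refine fixed_obstruction hR hPG hfinP hP hL hFdef hF hPF k hk hcard ?_
  rcases h with h | ⟨hu, ht, hidx, hdvd⟩
  · exact h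
  · intro x _
    have : Finite Ω := by
      rw [hu] at hF
      exact Set.finite_univ_iff.1 hF
    rw [hu, Set.ncard_univ] at hdvd
    exact orbit_dvd ht hPG hidx hdvd x

end Pool.Agent.Results.MP_a0202c_co.SylowObstruction
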