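import Pool.Agent.QGP776.Basic

set_option autoImplicit false

namespace Pool.Agent.Results.MP_a0202c_co.Wreath

universe u v

open Pool.Agent.QGP776

/-- Wreath products. Let `A` be a permutation group on `Δ` and `Γ` a set.
Product action: if `Γ` is nonempty and the stabiliser in `A` of some point `δ` fixes only `δ`, then
every permutation group `W` on `Γ → Δ` between the base group `A ^ Γ` and the full wreath product of
`A` by `Sym Γ` in product action is realisable if and only if `A` is.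
Imprimitive action: if `A` moves every point of `Δ` and `Γ` has at least two points, then no
permutation group on `Γ × Δ` that contains the base group `A ^ Γ` is realisable. -/
theorem result (Δ : Type u) (Γ : Type v) (A : Subgroup (Equiv.Perm Δ)) :
    (Nonempty Γ → (∃ δ : Δ, ∀ w, (∀ a ∈ A, a δ = δ → a w = w) → w = δ) →
      ∀ W : Subgroup (Equiv.Perm (Γ → Δ)),
      (∀ a : Γ → Equiv.Perm Δ, (∀ γ, a γ ∈ A) →
        ∃ g ∈ W, ∀ (f : Γ → Δ) (γ : Γ), g f γ = a γ (f γ)) →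
      (∀ g ∈ W, ∃ σ : Equiv.Perm Γ, ∃ a : Γ → Equiv.Perm Δ, (∀ γ, a γ ∈ A) ∧
        ∀ (f : Γ → Δ) (γ : Γ), g f γ = a γ (f (σ γ))) →
      (Realisable W ↔ Realisable A)) ∧
    (Nontrivial Γ → Nonempty Δ → (∀ d : Δ, ∃ a ∈ A, a d ≠ d) →
      ∀ W : Subgroup (Equiv.Perm (Γ × Δ)),
      (∀ a : Γ → Equiv.Perm Δ, (∀ γ, a γ ∈ A) →
        ∃ g ∈ W, ∀ (γ : Γ) (d : Δ), g (γ, d) = (γ, a γ d)) →
      ¬ Realisable W) := by
  classical
  constructor
  · rintro hΓ ⟨δ, hδ⟩ W hW1 hW2
    exact ⟨realisable_of_product δ hδ W hW1, fun hA => realisable_product hA W hW2⟩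
  · rintro ⟨γ1, γ2, hγ⟩ ⟨d0⟩ hA W hW
    refine not_realisable_of_local (Prod.fst : Γ × Δ → Γ) ⟨(γ1, d0), (γ2, d0), hγ⟩ ?_
    rintro ⟨γ, d⟩
    obtain ⟨a, ha, had⟩ := hA d
    obtain ⟨g, hg, hgf⟩ := hW (fun γ' => if γ' = γ then a else 1) (by
      intro γ'
      by_cases h : γ' = γ
      · simp [h, ha]
      · simp [h, A.one_mem])
    refine ⟨g, hg, ?_, ?_⟩
    · rw [hgf]
      simpa using had
    · rintro ⟨γ', d'⟩ h
      have h' : γ' ≠ γ := h
      rw [hgf]
      simp [h']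

end Pool.Agent.Results.MP_a0202c_co.Wreath
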